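import Pool.Agent.Helper15.CY.Few

set_option autoImplicit false
open Nat Filter N9cdb51e1

namespace Pool.Agent.Results.MP_78a9e2_nt.FewPrimes

/-- Cambie's conjecture for tails with few prime factors: a solution `(n,r)` of `g_{k+r}(n) = 2 g_k(n)` (all large `k`), `g(n) = n + φ(n)`, whose
large iterates have at most seven distinct prime factors is special. -/
theorem result (n r : ℕ) (hn : 0 < n) (hr : 0 < r) (hsol : ∀ᶠ k in atTop, g^[k + r] n = 2 * g^[k] n)
    (hfew : ∀ᶠ k in atTop, (g^[k] n).primeFactors.card ≤ 7) :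
    r = 2 ∧ ∃ j l, 1 ≤ l ∧ ∃ q ∈ ({2, 3, 5, 7, 35, 47} : Finset ℕ), g^[j] n = 2 ^ l * q := by
  rcases Pool.Agent.Helper51.Phi.forward hn hr hsol with ⟨h2, j, l, hl, hj⟩ | ⟨j, l, p, e, q, hl, hp, hp8, he, hq, hqo, hr2, hj, hend, hodd⟩
  · exact ⟨h2, j, l, hl, 2, by decide, hj⟩
  · have hcard := Pool.Agent.Helper15.CY.chain_cards (k := 6) (s := r - 1) hl hp hp8 he hq hj hend
      (fun i hi => hodd i (by omega)) hfew
    rcases Nat.eq_or_lt_of_le hr2 with hr2' | hr3
    · subst hr2'
      obtain ⟨he1, hphi⟩ := Pool.Agent.Helper51.Phi.chain_two hp (by omega) he hq hend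
      subst he1
      rw [pow_one] at hj
      have hc := hcard 0 (by norm_num)
      simp only [Nat.sub_self, pow_zero, one_mul, Function.iterate_zero, id_eq] at hc
      rcases Pool.Agent.Helper15.CY.six (Nat.odd_iff.mp hqo) hphi hc with h | h | h | h
      · have : p = 7 := by omega
        subst this
        exact ⟨rfl, j, l, hl, 7, by decide, hj⟩
      · have : p = 47 := by omega
        subst this
        exact ⟨rfl, j, l, hl, 47, by decide, hj⟩
      · exfalso
        have : p = 11 * 157 := by omega
        rw [this] at hp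
        exact (by norm_num : ¬ Nat.Prime (11 * 157)) hp
      · exfalso
        have : p = 23 * 97369 := by omega
        rw [this] at hp
        exact (by norm_num : ¬ Nat.Prime (23 * 97369)) hp
    · exact (Pool.Agent.Helper15.CY.no_long (s := r - 1) hp hp8 he hq (by omega) hend (fun i hi => hodd i (by omega)) hcard).elim

end Pool.Agent.Results.MP_78a9e2_nt.FewPrimes
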