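import Pool.Agent.Helper15.CY.Final

set_option autoImplicit false
open Nat Filter N9cdb51e1

namespace Pool.Agent.Results.MP_78a9e2_nt.PeriodBound

open Classical in
/-- Solutions `(n,r)` of `g_{k+r}(n) = 2 g_k(n)` (all large `k`), `g(n) = n + φ(n)`: long periods need very many prime factors, and the
numbers from which on the relation holds are rare. -/
theorem result : ∃ c C : ℝ, 0 < c ∧ 0 < C ∧
    (∀ n r : ℕ, 0 < n → 3 ≤ r → (∀ᶠ k in atTop, g^[k + r] n = 2 * g^[k] n) →
      (∃ᶠ k in atTop, 47 ≤ (g^[k] n).primeFactors.card ∧ Real.exp (c * r) ≤ (g^[k] n).primeFactors.card) ∧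
      ∀ᶠ k in atTop, Real.exp (Real.exp (c * r)) ≤ ((ordCompl[2] (g^[k] n) : ℕ) : ℝ)) ∧
    ∀ x : ℕ, 16 ≤ x →
      (((Finset.Icc 1 x).filter fun m => ∃ r, 0 < r ∧ ∀ k, g^[k + r] m = 2 * g^[k] m).card : ℝ) ≤
        C * x * Real.log (Real.log x) / Real.log x := by
  obtain ⟨c, hc, hsize⟩ := Pool.Agent.Helper15.CY.chain_size
  obtain ⟨C, hC, hcount⟩ := Pool.Agent.Helper15.CY.tail_count
  refine ⟨c / 2, C, by positivity, hC, ?_, ?_⟩
  · intro n r hn hr hsol
    rcases Pool.Agent.Helper51.Phi.forward hn (by omega) hsol with ⟨h2, -⟩ | ⟨j, l, p, e, q, hl, hp, hp8, he, hq, hqo, hr2, hj, hend, hodd⟩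
    · omega
    · obtain ⟨s, rfl⟩ : ∃ s, r = s + 1 := ⟨r - 1, by omega⟩
      rw [Nat.add_sub_cancel] at hend
      have HC : Pool.Agent.Helper15.CY.Chain p e q s := ⟨hp, hp8, he, hq, by omega, hend, hodd⟩
      obtain ⟨⟨i, hi, h46, hexp⟩, hbig⟩ := hsize HC (by omega)
      have hs2 : (2 : ℝ) ≤ s := by exact_mod_cast (by omega : 2 ≤ s)
      have hcs : c / 2 * ((s + 1 : ℕ) : ℝ) ≤ c * s := by
        push_cast
        nlinarith
      constructor
      · rw [Filter.frequently_atTop]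
        intro K
        refine ⟨i + ((j + K * (s + 1)) + 1), by nlinarith, ?_⟩
        rw [HC.ret hl hj K i hi.le]
        have hco : (2 ^ (l + K + 1)).Coprime (Pool.Agent.Helper51.Phi.h^[i] (p ^ (e - 1) * q)) :=
          Nat.Coprime.pow_left _ (Nat.coprime_two_left.mpr (hodd i (by omega)))
        rw [Nat.Coprime.primeFactors_mul hco, Finset.card_union_of_disjoint hco.disjoint_primeFactors,
          Nat.primeFactors_prime_pow (by omega) Nat.prime_two, Finset.card_singleton]
        refine ⟨by omega, ?_⟩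
        push_cast
        have := (Real.exp_le_exp.mpr hcs).trans hexp
        push_cast at this
        linarith
      · rw [eventually_atTop]
        refine ⟨j, fun b hb => ?_⟩
        obtain ⟨t, rfl⟩ : ∃ t, b = j + t := ⟨b - j, by omega⟩
        obtain ⟨l', i', -, hi', ht⟩ := HC.all hl hj t
        rw [ht, Pool.Agent.Helper15.CY.odd_compl (hodd i' (by omega))]
        have h1 : p ^ (e - 1) * q ≤ Pool.Agent.Helper51.Phi.h^[i'] (p ^ (e - 1) * q) := Pool.Agent.Helper51.Phi.h_iter_ge i' _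
        have h2 : ((p ^ (e - 1) * q : ℕ) : ℝ) ≤ ((Pool.Agent.Helper51.Phi.h^[i'] (p ^ (e - 1) * q) : ℕ) : ℝ) := by exact_mod_cast h1
        exact (Real.exp_le_exp.mpr (Real.exp_le_exp.mpr hcs)).trans (hbig.trans h2)
  · intro x hx
    exact hcount x hx

end Pool.Agent.Results.MP_78a9e2_nt.PeriodBound
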