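import Pool.Agent.Helper51.Phi.Orbit

set_option autoImplicit false
open Nat Filter N9cdb51e1

namespace Pool.Agent.Results.MP_78a9e2_nt.SolutionStructure

/-- The map of the odd parts: `c ↦ c + φ(c)/2`. -/
def halfStep (c : ℕ) : ℕ := c + φ c / 2

private lemma special_return {n j l : ℕ} (q : ℕ) (hq : Even (2 ^ l * q)) (h2 : 2 < 2 ^ l * q) (hj : g^[j] n = 2 ^ l * q)
    (hret : g^[2] (2 ^ l * q) = 2 * (2 ^ l * q)) : ∀ᶠ k in atTop, g^[k + 2] n = 2 * g^[k] n :=
  Pool.Agent.Helper51.Phi.solution_of_return (by rw [hj]; exact hq) (by rw [hj]; exact h2) (by rw [hj]; exact hret)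

/-- Classification of the solutions `(n,r)` of `g_{k+r}(n) = 2 g_k(n)` (all large `k`), `g(n) = n + φ(n)`: the special pairs; the pairs `(n,2)` with
an iterate `2^l p`, `p = (4q+1)/3` prime, `3 φ(q) = 2(q+1)`, `q > 35` odd; and pairs `(n,r)`, `r ≥ 3`, with an iterate `2^l p^e`, `p = 7` mod `8`,
`p^e > 10^300`, for which `p^e` is reached from `p^(e-1) (3p-1)/4` by `r - 1` steps `c ↦ c + φ(c)/2` through odd numbers. -/
theorem result (n r : ℕ) (hn : 0 < n) (hr : 0 < r) :
    (∀ᶠ k in atTop, g^[k + r] n = 2 * g^[k] n) ↔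
      ((r = 2 ∧ ∃ j l, 1 ≤ l ∧ ∃ q ∈ ({2, 3, 5, 7, 35, 47} : Finset ℕ), g^[j] n = 2 ^ l * q) ∨
      (r = 2 ∧ ∃ j l p q, 1 ≤ l ∧ p.Prime ∧ Odd q ∧ 35 < q ∧ 4 * q + 1 = 3 * p ∧ 3 * φ q = 2 * (q + 1) ∧ g^[j] n = 2 ^ l * p) ∨
      (3 ≤ r ∧ ∃ j l p e q, 1 ≤ l ∧ p.Prime ∧ p % 8 = 7 ∧ 1 ≤ e ∧ 10 ^ 300 < p ^ e ∧ 4 * q + 1 = 3 * p ∧ g^[j] n = 2 ^ l * p ^ e ∧
        halfStep^[r - 1] (p ^ (e - 1) * q) = p ^ e ∧ ∀ i < r, Odd (halfStep^[i] (p ^ (e - 1) * q)))) := by
  have hhs : halfStep = Pool.Agent.Helper51.Phi.h := rfl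
  rw [hhs]
  constructor
  · intro hsol
    rcases Pool.Agent.Helper51.Phi.forward hn hr hsol with ⟨h2, j, l, hl, hj⟩ | ⟨j, l, p, e, q, hl, hp, hp8, he, hq, hqo, hr2, hj, hend, hodd⟩
    · exact Or.inl ⟨h2, j, l, hl, 2, by decide, hj⟩
    · rcases Nat.eq_or_lt_of_le hr2 with hr2' | hr3
      · subst hr2'
        obtain ⟨he1, hphi⟩ := Pool.Agent.Helper51.Phi.chain_two hp (by omega) he hq hend
        subst he1
        rw [pow_one] at hj
        by_cases hq35 : 35 < q
        · exact Or.inr (Or.inl ⟨rfl, j, l, p, q, hl, hp, hqo, hq35, hq, hphi, hj⟩)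
        · left
          have hsmall : ∀ q ≤ 35, 3 * φ q = 2 * (q + 1) → q = 5 ∨ q = 35 := by decide
          rcases hsmall q (by omega) hphi with h5 | h35
          · have : p = 7 := by omega
            subst this
            exact ⟨rfl, j, l, hl, 7, by decide, hj⟩
          · have : p = 47 := by omega
            subst this
            exact ⟨rfl, j, l, hl, 47, by decide, hj⟩
      · right; right
        refine ⟨hr3, j, l, p, e, q, hl, hp, hp8, he, ?_, hq, hj, hend, hodd⟩
        exact Pool.Agent.Helper51.Phi.chain_bound hp (by omega) he hq hqo (s := r - 1) (by omega) hend (hodd _ (by omega))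
  · rintro (⟨rfl, j, l, hl, q, hq, hj⟩ | ⟨rfl, j, l, p, q, hl, hp, hqo, hq35, hq, hphi, hj⟩ |
      ⟨hr3, j, l, p, e, q, hl, hp, hp8, he, -, hq, hj, hend, hodd⟩)
    · have h2l : 2 ≤ 2 ^ l := by
        calc 2 = 2 ^ 1 := by norm_num
          _ ≤ 2 ^ l := Nat.pow_le_pow_right (by norm_num) hl
      have hev : Even (2 ^ l) := (Nat.even_pow' (by omega)).mpr (by decide)
      have hg2 : ∀ c d, Odd c → 3 ≤ c → Pool.Agent.Helper51.Phi.h c = d → Odd d → 3 ≤ d → Pool.Agent.Helper51.Phi.h d = 2 * c →
          g^[2] (2 ^ l * c) = 2 * (2 ^ l * c) := by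
        intro c d hc hc3 hcd hd hd3 hdc
        rw [show (2 : ℕ) = 1 + 1 by norm_num, Function.iterate_succ_apply, Function.iterate_one, ← show (2 : ℕ) = 1 + 1 by norm_num,
          Pool.Agent.Helper51.Phi.g_step hl hc hc3, hcd, Pool.Agent.Helper51.Phi.g_step hl hd hd3, hdc]
        ring
      have hg2' : ∀ c d, Odd c → 3 ≤ c → Odd d → 3 ≤ d → Pool.Agent.Helper51.Phi.h c = 2 * d → Pool.Agent.Helper51.Phi.h d = c →
          g^[2] (2 ^ l * c) = 2 * (2 ^ l * c) := by
        intro c d hc hc3 hd hd3 hcd hdc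
        rw [show (2 : ℕ) = 1 + 1 by norm_num, Function.iterate_succ_apply, Function.iterate_one, ← show (2 : ℕ) = 1 + 1 by norm_num,
          Pool.Agent.Helper51.Phi.g_step hl hc hc3, hcd, ← mul_assoc, ← pow_succ,
          Pool.Agent.Helper51.Phi.g_step (by omega) hd hd3, hdc]
        ring
      simp only [Finset.mem_insert, Finset.mem_singleton] at hq
      rcases hq with rfl | rfl | rfl | rfl | rfl | rfl
      · refine special_return 2 (hev.mul_right _) (by omega) hj ?_
        rw [← pow_succ, show (2 : ℕ) = 1 + 1 by norm_num, Function.iterate_succ_apply, Function.iterate_one,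
          ← show (2 : ℕ) = 1 + 1 by norm_num, Pool.Agent.Helper51.Phi.g_pow_two (by omega), Nat.add_sub_cancel,
          Pool.Agent.Helper51.Phi.g_step hl (by decide) (by norm_num), show Pool.Agent.Helper51.Phi.h 3 = 4 by decide]
        ring
      · refine special_return 3 (hev.mul_right _) (by omega) hj ?_
        rw [show (2 : ℕ) = 1 + 1 by norm_num, Function.iterate_succ_apply, Function.iterate_one,
          ← show (2 : ℕ) = 1 + 1 by norm_num, Pool.Agent.Helper51.Phi.g_step hl (by decide) (by norm_num),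
          show Pool.Agent.Helper51.Phi.h 3 = 2 ^ 2 by decide, ← pow_add, Pool.Agent.Helper51.Phi.g_pow_two (by omega),
          show l + 2 - 1 = l + 1 by omega]
        ring
      · exact special_return 5 (hev.mul_right _) (by omega) hj
          (hg2 5 7 (by decide) (by norm_num) (by decide) (by decide) (by norm_num) (by decide))
      · exact special_return 7 (hev.mul_right _) (by omega) hj
          (hg2' 7 5 (by decide) (by norm_num) (by decide) (by norm_num) (by decide) (by decide))
      · exact special_return 35 (hev.mul_right _) (by omega) hj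
          (hg2 35 47 (by decide) (by norm_num) (by decide) (by decide) (by norm_num) (by decide))
      · exact special_return 47 (hev.mul_right _) (by omega) hj
          (hg2' 47 35 (by decide) (by norm_num) (by decide) (by norm_num) (by decide) (by decide))
    · refine Pool.Agent.Helper51.Phi.backward (e := 1) (r := 2) hl hp (by omega) le_rfl hq le_rfl (by rw [pow_one]; exact hj) ?_ ?_
      · simp only [Nat.sub_self, pow_zero, one_mul, pow_one, Nat.add_one_sub_one, Function.iterate_one]
        obtain ⟨k, hk⟩ := Nat.totient_even (n := q) (by omega)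
        unfold Pool.Agent.Helper51.Phi.h
        omega
      · intro i hi
        have : i = 0 := by omega
        subst this
        simpa using hqo
    · exact Pool.Agent.Helper51.Phi.backward hl hp (by omega) he hq (by omega) hj hend (fun i hi => hodd i (by omega))

end Pool.Agent.Results.MP_78a9e2_nt.SolutionStructure
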