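import Pool.Agent.Helper15.CY.Tail

set_option autoImplicit false
open Nat Filter N9cdb51e1

namespace Pool.Agent.Results.MP_78a9e2_nt.TailFiniteness

/-- The bound `3^r (3^r ((r-1)k+1))^(2^((r-1)k+1))`. -/
def bound (r k : ℕ) : ℕ := 3 ^ r * (3 ^ r * ((r - 1) * k + 1)) ^ 2 ^ ((r - 1) * k + 1)

/-- Explicit finiteness of the solutions `(n,r)` of `g_{j+r}(n) = 2 g_j(n)` whose tail terms have at most `k + 1` distinct prime factors:
`r ≤ 1 + (3/2)^k`, and there is a prime `p ≤ bound r k` such that all large iterates are `2^l p^a w` with `w ≤ bound r k`, and `a ≤ 1` if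
`r = 2`. -/
theorem result (n r k : ℕ) (hn : 0 < n) (hr : 0 < r) (hsol : ∀ᶠ j in atTop, g^[j + r] n = 2 * g^[j] n)
    (hk : ∀ᶠ j in atTop, (g^[j] n).primeFactors.card ≤ k + 1) :
    2 ^ k * (r - 1) ≤ 3 ^ k ∧ ∃ p, p.Prime ∧ p ≤ bound r k ∧
      ∀ᶠ j in atTop, ∃ l a w, w ≤ bound r k ∧ (r = 2 → a ≤ 1) ∧ g^[j] n = 2 ^ l * p ^ a * w := by
  have hb : bound = Pool.Agent.Helper15.CY.bnd := rfl
  rw [hb]
  rcases Pool.Agent.Helper51.Phi.forward hn hr hsol with ⟨h2, j, l, hl, hj⟩ | ⟨j, l, p, e, q, hl, hp, hp8, he, hq, hqo, hr2, hj, hend, hodd⟩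
  · subst h2
    have h9 : 3 ^ 2 ≤ Pool.Agent.Helper15.CY.bnd 2 k := Pool.Agent.Helper15.CY.bnd_ge 2 k
    have h1 := Pool.Agent.Helper15.CY.two_case (k := k) hl hj
    refine ⟨?_, 2, Nat.prime_two, by omega, ?_⟩
    · rw [show 2 - 1 = 1 by norm_num, mul_one]
      exact Nat.pow_le_pow_left (by norm_num) k
    · filter_upwards [h1] with b hb
      obtain ⟨l', a, w, hw, ha, hb'⟩ := hb
      exact ⟨l', a, w, hw, fun _ => ha, hb'⟩
  · obtain ⟨h1, p', hp', hp'b, h2⟩ := Pool.Agent.Helper15.CY.chain_case hr2 hl hp hp8 he hq hj hend hodd hk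
    refine ⟨h1, ?_⟩
    by_cases hr2' : r = 2
    · subst hr2'
      obtain ⟨hpb, h3⟩ := Pool.Agent.Helper15.CY.chain_case_two hl hp hp8 he hq hj hend hodd hk
      refine ⟨p, hp, hpb, ?_⟩
      filter_upwards [h3] with b hb
      obtain ⟨l', a, w, hw, ha, hb'⟩ := hb
      exact ⟨l', a, w, hw, fun _ => ha, hb'⟩
    · refine ⟨p', hp', hp'b, ?_⟩
      filter_upwards [h2] with b hb
      obtain ⟨l', a, w, hw, hb'⟩ := hb
      exact ⟨l', a, w, hw, fun h => absurd h hr2', hb'⟩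

end Pool.Agent.Results.MP_78a9e2_nt.TailFiniteness
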